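import Pool.Agent.Helper65.LG.Defs

set_option autoImplicit false

open Finset Filter Topology

namespace Pool.Agent.Helper65.LG

variable {G : GMap} {C : Finset (ℕ × ℕ)} {ρ : ℕ × ℕ → ℝ}

theorem cls_mem (B : ℕ × ℕ) (t : ℕ) : ((B.1 : ℤ) + ((G.d * B.2 : ℕ) : ℤ) * t) ∈ cls G B := by
  unfold cls
  simp only [Set.mem_ofPred_eq]
  exact (Int.modEq_iff_add_fac.mpr ⟨(t : ℤ), rfl⟩).symm

open Classical in
/-- many elements -/
theorem many (hC : IsClass G C) : ∃ c : ℝ, 0 < c ∧ ∃ N0 : ℕ, ∀ N : ℕ, N0 ≤ N →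
    c * N ≤ (((Icc (-(N : ℤ)) N).filter (fun x => x ∈ SC G C)).card : ℝ) := by
  obtain ⟨B, hB⟩ := hC.ne
  obtain ⟨hk, hj⟩ := hC.state B hB
  have hd : 2 ≤ G.d := G.hd
  set D : ℕ := G.d * B.2 with hD
  have hD1 : 1 ≤ D := Nat.one_le_iff_ne_zero.mpr (Nat.mul_ne_zero (by omega) (by omega))
  refine ⟨1 / (2 * D), by positivity, D, fun N hN => ?_⟩
  have himg : (Finset.range (N / D)).image (fun t : ℕ => ((B.1 : ℤ) + (D : ℤ) * t)) ⊆
      (Icc (-(N : ℤ)) N).filter (fun x => x ∈ SC G C) := by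
    intro x hx
    obtain ⟨t, ht, rfl⟩ := Finset.mem_image.mp hx
    rw [Finset.mem_range] at ht
    rw [Finset.mem_filter, Finset.mem_Icc]
    have h1 : D * (t + 1) ≤ N := le_trans (Nat.mul_le_mul_left D ht) (Nat.mul_div_le N D)
    have h2 : (D : ℤ) * ((t : ℤ) + 1) ≤ N := by exact_mod_cast h1
    have h3 : (B.1 : ℤ) < D := by exact_mod_cast hj
    have h4 : (0 : ℤ) ≤ B.1 := by positivity
    have h5 : (0 : ℤ) ≤ (D : ℤ) * t := by positivity
    refine ⟨⟨by linarith, by linarith⟩, B, hB, cls_mem B t⟩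
  have hcard := Finset.card_le_card himg
  rw [Finset.card_image_of_injective, Finset.card_range] at hcard
  · have h1 : (N : ℝ) / (2 * D) ≤ ((N / D : ℕ) : ℝ) := by
      have h2 : 1 ≤ N / D := (Nat.one_le_div_iff (by omega)).mpr hN
      have h3 : N < D * (N / D + 1) := by
        have := Nat.lt_mul_div_succ N (show 0 < D by omega)
        exact this
      have h4 : (N : ℝ) < D * (((N / D : ℕ) : ℝ) + 1) := by exact_mod_cast h3
      have h5 : (1 : ℝ) ≤ ((N / D : ℕ) : ℝ) := by exact_mod_cast h2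
      have hDr : (0 : ℝ) < D := by exact_mod_cast hD1
      rw [div_le_iff₀ (by positivity)]
      nlinarith
    calc 1 / (2 * (D : ℝ)) * N = (N : ℝ) / (2 * D) := by ring
      _ ≤ ((N / D : ℕ) : ℝ) := h1
      _ ≤ _ := by exact_mod_cast hcard
  · intro a b hab
    simp only at hab
    have hD0 : (D : ℤ) ≠ 0 := by exact_mod_cast (show D ≠ 0 by omega)
    have := mul_left_cancel₀ hD0 (add_left_cancel hab)
    exact_mod_cast this

open Classical in
/-- almost every: from a bound of the exceptional set -/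
theorem ae_of_bound (hC : IsClass G C) (E : Set ℤ) (u : ℕ → ℝ) (hu : Tendsto u atTop (𝓝 0))
    (h : ∀ᶠ N : ℕ in atTop,
      (((Icc (-(N : ℤ)) N).filter (fun x => x ∈ SC G C ∧ x ∉ E)).card : ℝ) ≤ u N * N) :
    AE G C E := by
  obtain ⟨c, hc, N0, hN0⟩ := many hC
  unfold AE
  have hu' : Tendsto (fun N => u N / c) atTop (𝓝 0) := by simpa using hu.div_const c
  refine squeeze_zero' (Eventually.of_forall fun N => by positivity) ?_ hu'
  filter_upwards [h, eventually_ge_atTop N0, eventually_ge_atTop 1] with N h1 h2 h3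
  have hN : (0 : ℝ) < N := by exact_mod_cast h3
  have hden := hN0 N h2
  have hcN : 0 < c * N := by positivity
  rw [div_le_div_iff₀ (lt_of_lt_of_le hcN hden) hc]
  have hnum0 : 0 ≤ (((Icc (-(N : ℤ)) N).filter (fun x => x ∈ SC G C ∧ x ∉ E)).card : ℝ) := by
    positivity
  have hu0 : 0 ≤ u N := by
    by_contra hneg
    push Not at hneg
    have : u N * N < 0 := mul_neg_of_neg_of_pos hneg hN
    linarith
  calc (((Icc (-(N : ℤ)) N).filter (fun x => x ∈ SC G C ∧ x ∉ E)).card : ℝ) * c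
      ≤ (u N * N) * c := mul_le_mul_of_nonneg_right h1 hc.le
    _ = u N * (c * N) := by ring
    _ ≤ _ := mul_le_mul_of_nonneg_left hden hu0

/-- monotonicity of almost every, up to the integers `|x| < M` -/
theorem AE.mono (hC : IsClass G C) {E F : Set ℤ} (M : ℝ) (hE : AE G C E)
    (h : ∀ x : ℤ, M ≤ |(x : ℝ)| → x ∈ E → x ∈ F) : AE G C F := by
  classical
  obtain ⟨c, hc, N0, hN0⟩ := many hC
  unfold AE at hE ⊢
  set S : Finset ℤ := Icc (-⌈M⌉) ⌈M⌉ with hS
  have hz : Tendsto (fun N : ℕ => (S.card : ℝ) / (c * N)) atTop (𝓝 0) := by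
    refine Tendsto.div_atTop tendsto_const_nhds ?_
    exact Tendsto.const_mul_atTop hc tendsto_natCast_atTop_atTop
  have hsum := hE.add hz
  rw [add_zero] at hsum
  refine squeeze_zero' (Eventually.of_forall fun N => by positivity) ?_ hsum
  filter_upwards [eventually_ge_atTop N0, eventually_ge_atTop 1] with N h2 h3
  have hN : (0 : ℝ) < N := by exact_mod_cast h3
  have hden := hN0 N h2
  have hcN : 0 < c * N := by positivity
  have hd0 := lt_of_lt_of_le hcN hden
  have hsub : (Icc (-(N : ℤ)) N).filter (fun x => x ∈ SC G C ∧ x ∉ F) ⊆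
      (Icc (-(N : ℤ)) N).filter (fun x => x ∈ SC G C ∧ x ∉ E) ∪ S := by
    intro x hx
    rw [Finset.mem_filter] at hx
    rw [Finset.mem_union, Finset.mem_filter]
    by_cases hM : M ≤ |(x : ℝ)|
    · exact Or.inl ⟨hx.1, hx.2.1, fun hxE => hx.2.2 (h x hM hxE)⟩
    · right
      push Not at hM
      rw [hS, Finset.mem_Icc]
      have h4 : |(x : ℝ)| < ⌈M⌉ := lt_of_lt_of_le hM (Int.le_ceil M)
      rw [abs_lt] at h4
      have h5 : (-(⌈M⌉ : ℤ) : ℝ) < x := h4.1
      constructor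
      · exact_mod_cast h5.le
      · exact_mod_cast h4.2.le
  have hcard : (((Icc (-(N : ℤ)) N).filter (fun x => x ∈ SC G C ∧ x ∉ F)).card : ℝ) ≤
      (((Icc (-(N : ℤ)) N).filter (fun x => x ∈ SC G C ∧ x ∉ E)).card : ℝ) + S.card := by
    exact_mod_cast le_trans (Finset.card_le_card hsub) (Finset.card_union_le _ _)
  calc _ ≤ ((((Icc (-(N : ℤ)) N).filter (fun x => x ∈ SC G C ∧ x ∉ E)).card : ℝ) + S.card) /
        (((Icc (-(N : ℤ)) N).filter (fun x => x ∈ SC G C)).card : ℝ) :=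
        div_le_div_of_nonneg_right hcard hd0.le
    _ = (((Icc (-(N : ℤ)) N).filter (fun x => x ∈ SC G C ∧ x ∉ E)).card : ℝ) /
        (((Icc (-(N : ℤ)) N).filter (fun x => x ∈ SC G C)).card : ℝ) + S.card /
        (((Icc (-(N : ℤ)) N).filter (fun x => x ∈ SC G C)).card : ℝ) := add_div _ _ _
    _ ≤ _ := by
        gcongr

end Pool.Agent.Helper65.LG
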