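import Mathlib

/-! Generalised Collatz maps and Leigh's Markov chain: definitions and frozen statements. -/

set_option autoImplicit false

open Finset Filter Topology

namespace Pool.Agent.Helper65.LG

/-- A generalised Collatz map: `x ↦ (m i x - r i) / d` for `x ≡ i (mod d)`. -/
structure GMap where
  d : ℕ
  m : ℕ → ℤ
  r : ℕ → ℤ
  hd : 2 ≤ d
  hm : ∀ i < d, m i ≠ 0
  hr : ∀ i < d, (d : ℤ) ∣ i * m i - r i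

variable (G : GMap)

/-- the residue of `x` modulo `d` -/
def res (x : ℤ) : ℕ := (x % (G.d : ℤ)).toNat

/-- the map -/
def T (x : ℤ) : ℤ := (G.m (res G x) * x - G.r (res G x)) / (G.d : ℤ)

/-- `d i`: the largest divisor of `m i` all of whose prime factors divide `d` -/
def dd (i : ℕ) : ℕ := Nat.gcd (G.m i).natAbs (G.d ^ (G.m i).natAbs)

/-- the class of the integers congruent to `B.1` modulo `d * B.2` -/
def cls (B : ℕ × ℕ) : Set ℤ := {x : ℤ | x ≡ (B.1 : ℤ) [ZMOD ((G.d * B.2 : ℕ) : ℤ)]}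

/-- `g = gcd (k d_i, d)` -/
def gg (B : ℕ × ℕ) : ℕ := Nat.gcd (B.2 * dd G (B.1 % G.d)) G.d

/-- `k' = k d_i / g` -/
def kk (B : ℕ × ℕ) : ℕ := B.2 * dd G (B.1 % G.d) / gg G B

/-- a transition of Leigh's chain -/
def Succ (B B' : ℕ × ℕ) : Prop :=
  B'.2 = kk G B ∧ B'.1 < G.d * B'.2 ∧
    T G (B.1 : ℤ) ≡ (B'.1 : ℤ) [ZMOD ((B.2 * dd G (B.1 % G.d) : ℕ) : ℤ)]

open Classical in
/-- the transition probabilities -/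
noncomputable def P (B B' : ℕ × ℕ) : ℝ := if Succ G B B' then (gg G B : ℝ) / G.d else 0

/-- a finite closed communicating class -/
structure IsClass (C : Finset (ℕ × ℕ)) : Prop where
  ne : C.Nonempty
  state : ∀ B ∈ C, 1 ≤ B.2 ∧ B.1 < G.d * B.2
  closed : ∀ B ∈ C, ∀ B', Succ G B B' → B' ∈ C
  irred : ∀ B ∈ C, ∀ B' ∈ C, Relation.ReflTransGen (Succ G) B B'

/-- a stationary distribution -/
structure IsStat (C : Finset (ℕ × ℕ)) (ρ : ℕ × ℕ → ℝ) : Prop where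
  nonneg : ∀ B ∈ C, 0 ≤ ρ B
  sum : ∑ B ∈ C, ρ B = 1
  stat : ∀ B' ∈ C, ∑ B ∈ C, ρ B * P G B B' = ρ B'

/-- the mean of a function of the state -/
noncomputable def mean (C : Finset (ℕ × ℕ)) (ρ f : ℕ × ℕ → ℝ) : ℝ := ∑ B ∈ C, ρ B * f B

/-- `log (|m i| / d)` -/
noncomputable def f1 (B : ℕ × ℕ) : ℝ := Real.log (|(G.m (B.1 % G.d) : ℝ)| / G.d)

/-- `log (d / d i)` -/
noncomputable def f2 (B : ℕ × ℕ) : ℝ := Real.log ((G.d : ℝ) / dd G (B.1 % G.d))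

/-- the state after one step, for the integer `x` in the state `B` -/
def nxt (B : ℕ × ℕ) (x : ℤ) : ℕ × ℕ := ((T G x % ((G.d * kk G B : ℕ) : ℤ)).toNat, kk G B)

/-- the path of states of `x`, started at `B` -/
def Y (B : ℕ × ℕ) (x : ℤ) : ℕ → ℕ × ℕ
  | 0 => B
  | n + 1 => nxt G (Y B x n) ((T G)^[n] x)

/-- the sum of `f` along the path -/
noncomputable def S (f : ℕ × ℕ → ℝ) (B : ℕ × ℕ) (x : ℤ) (n : ℕ) : ℝ :=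
  ∑ l ∈ range n, f (Y G B x l)

/-- the union of the classes of `C` -/
def SC (C : Finset (ℕ × ℕ)) : Set ℤ := {x | ∃ B ∈ C, x ∈ cls G B}

open Classical in
/-- almost every element of `SC` lies in `E` -/
def AE (C : Finset (ℕ × ℕ)) (E : Set ℤ) : Prop :=
  Tendsto (fun N : ℕ =>
    (((Icc (-(N : ℤ)) N).filter (fun x => x ∈ SC G C ∧ x ∉ E)).card : ℝ) /
      (((Icc (-(N : ℤ)) N).filter (fun x => x ∈ SC G C)).card : ℝ)) atTop (𝓝 0)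

/-- `log |b i|`, where `m i = b i * d i` -/
noncomputable def f0 (B : ℕ × ℕ) : ℝ :=
  Real.log (|(G.m (B.1 % G.d) : ℝ)| / dd G (B.1 % G.d))

/-! ### Packages -/

/-- PACKAGE L1 (Poisson equation; you may assume `S_step2`) -/
def S_poisson : Prop := ∀ (G : GMap) (C : Finset (ℕ × ℕ)) (ρ f : ℕ × ℕ → ℝ), IsClass G C →
  IsStat G C ρ → ∃ g : ℕ × ℕ → ℝ, ∀ B ∈ C,
    g B - ∑ B' ∈ C, P G B B' * g B' = f B - mean C ρ f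

/-- PACKAGE L2a (one step) -/
def S_step1 : Prop := ∀ (G : GMap) (B : ℕ × ℕ), 1 ≤ B.2 → B.1 < G.d * B.2 →
  (∀ x ∈ cls G B, (G.d : ℤ) * T G x = G.m (B.1 % G.d) * x - G.r (B.1 % G.d)) ∧
  (∀ x ∈ cls G B, Succ G B (nxt G B x) ∧ T G x ∈ cls G (nxt G B x)) ∧
  1 ≤ kk G B ∧ (gg G B * kk G B = B.2 * dd G (B.1 % G.d))

/-- PACKAGE L2b (row sums; you may assume `S_step1`) -/
def S_step2 : Prop := ∀ (G : GMap) (B : ℕ × ℕ), 1 ≤ B.2 → B.1 < G.d * B.2 →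
  (∀ C : Finset (ℕ × ℕ), (∀ B', Succ G B B' → B' ∈ C) → ∑ B' ∈ C, P G B B' = 1)

/-- PACKAGE L2c (the children of a cylinder; you may assume `S_step1`) -/
def S_step3 : Prop := ∀ (G : GMap) (B : ℕ × ℕ), 1 ≤ B.2 → B.1 < G.d * B.2 →
  (∀ B', Succ G B B' → ∀ (y0 b : ℤ), y0 ∈ cls G B → IsCoprime b (G.d : ℤ) →
    ∃ (t0 y1 b1 : ℤ), y1 ∈ cls G B' ∧ IsCoprime b1 (G.d : ℤ) ∧
      (∀ t : ℤ, nxt G B (y0 + ((G.d * B.2 : ℕ) : ℤ) * b * t) = B' ↔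
        ((G.d / gg G B : ℕ) : ℤ) ∣ t - t0) ∧
      (∀ t : ℤ, T G (y0 + ((G.d * B.2 : ℕ) : ℤ) * b * (t0 + ((G.d / gg G B : ℕ) : ℤ) * t)) =
        y1 + ((G.d * B'.2 : ℕ) : ℤ) * b1 * t))

open Classical in
/-- PACKAGE L3 (counting along the tree of cylinders; you may assume `S_step1`, `S_step3`) -/
def S_count : Prop := ∀ (G : GMap) (C : Finset (ℕ × ℕ)) (F : ℕ → ℕ × ℕ → ℝ) (X : ℕ) (n : ℕ)
  (Bad : ℕ → (ℕ → ℝ) → ℕ × ℕ → Prop) (Φ : ℕ → (ℕ → ℝ) → ℕ × ℕ → ℝ) (B₀ : ℕ × ℕ),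
  IsClass G C → B₀ ∈ C →
  (∀ l w B, 0 ≤ Φ l w B) → (∀ l w, ∀ B ∈ C, Bad l w B → 1 ≤ Φ l w B) →
  (∀ l < n, ∀ w, ∀ B ∈ C, ¬ Bad l w B →
    ∑ B' ∈ C, P G B B' * Φ (l + 1) (fun a => w a + F a B) B' ≤ Φ l w B) →
  G.d * B₀.2 ≤ X →
  (∀ x ∈ cls G B₀, ∀ l < n, (∀ l' ≤ l, ¬ Bad l' (fun a => S G (F a) B₀ x l') (Y G B₀ x l')) →
    (G.d : ℝ) * ((G.d * (Y G B₀ x l).2 : ℕ) * Real.exp (S G (f2 G) B₀ x l)) ≤ X) →
  (((Icc (-(X : ℤ)) X).filter (fun x => x ∈ cls G B₀ ∧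
    ∃ l ≤ n, Bad l (fun a => S G (F a) B₀ x l) (Y G B₀ x l))).card : ℝ) ≤
      3 * X / (G.d * B₀.2) * Φ 0 (fun _ => 0) B₀

/-- PACKAGE L4 (growth of the orbit; you may assume `S_step1`) -/
def S_growth : Prop := ∀ (G : GMap) (C : Finset (ℕ × ℕ)), IsClass G C → ∃ A : ℝ, ∀ (lam a : ℝ)
  (B : ℕ × ℕ) (x : ℤ) (n : ℕ), B ∈ C → x ∈ cls G B → A + Real.log (n + 1) ≤ a → x ≠ 0 →
  (∀ l ≤ n, |S G (f1 G) B x l - l * lam| ≤ a) →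
  (∀ l ≤ n, 3 * a ≤ Real.log |(x : ℝ)| + l * lam) →
  ∀ l ≤ n, (T G)^[l] x ≠ 0 ∧
    |Real.log |(((T G)^[l] x : ℤ) : ℝ)| - (Real.log |(x : ℝ)| + l * lam)| ≤ 2 * a

open Classical in
/-- PACKAGE L5 (few bad integers; you may assume `S_step1`, `S_step2`, `S_poisson`,
`S_count`) -/
def S_tail : Prop := ∀ (G : GMap) (C : Finset (ℕ × ℕ)) (ρ : ℕ × ℕ → ℝ), IsClass G C →
  IsStat G C ρ → ∃ K : ℝ, 0 < K ∧ ∀ (X n : ℕ) (A : ℝ), K ≤ A → K ≤ X →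
    (∀ l ≤ n, K * Real.exp (l * mean C ρ (f2 G) + A) ≤ X) → ∀ B₀ ∈ C,
    (((Icc (-(X : ℤ)) X).filter (fun x => x ∈ cls G B₀ ∧
      ∃ l ≤ n, A < |S G (f1 G) B₀ x l - l * mean C ρ (f1 G)| ∨
        A < |S G (f2 G) B₀ x l - l * mean C ρ (f2 G)|)).card : ℝ) ≤ K * X * n / A ^ 2

/-- PACKAGE L6 (the law; you may assume `S_step1`, `S_tail`, `S_growth`, `S_mean`) -/
def S_law : Prop := ∀ (G : GMap) (C : Finset (ℕ × ℕ)) (ρ : ℕ × ℕ → ℝ), IsClass G C →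
  IsStat G C ρ → ∀ ε : ℝ, 0 < ε → AE G C {x : ℤ | ∀ k : ℕ,
    k * mean C ρ (f2 G) ≤ (1 - ε) * Real.log |(x : ℝ)| → ε * k ≤ Real.log |(x : ℝ)| →
    (T G)^[k] x ≠ 0 ∧ |Real.log |(((T G)^[k] x : ℤ) : ℝ)| -
      (Real.log |(x : ℝ)| + k * mean C ρ (f1 G))| ≤ ε * Real.log |(x : ℝ)|}

/-- PACKAGE L7 (the means) -/
def S_mean : Prop := ∀ (G : GMap) (C : Finset (ℕ × ℕ)) (ρ : ℕ × ℕ → ℝ), IsClass G C →
  IsStat G C ρ → 0 ≤ mean C ρ (f0 G) ∧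
    mean C ρ (f1 G) = mean C ρ (f0 G) - mean C ρ (f2 G)

/-- PACKAGE L8 (the exponents; you may assume `S_law`, `S_mean`) -/
def S_exp : Prop := ∀ (G : GMap) (C : Finset (ℕ × ℕ)) (ρ : ℕ × ℕ → ℝ), IsClass G C →
  IsStat G C ρ →
  (mean C ρ (f1 G) < 0 → ∀ θ : ℝ, mean C ρ (f0 G) < θ * mean C ρ (f2 G) →
    AE G C {x : ℤ | ∃ k : ℕ, |(((T G)^[k] x : ℤ) : ℝ)| ≤ |(x : ℝ)| ^ θ}) ∧
  (0 < mean C ρ (f1 G) → ∀ θ : ℝ, θ * mean C ρ (f2 G) < mean C ρ (f0 G) →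
    AE G C {x : ℤ | ∃ k : ℕ, |(x : ℝ)| ^ θ ≤ |(((T G)^[k] x : ℤ) : ℝ)|})

end Pool.Agent.Helper65.LG
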