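import Pool.Agent.Helper65.LG.Base

set_option autoImplicit false

open Finset Filter Topology

namespace Pool.Agent.Helper65.LG

variable (G : GMap)

open Classical in
/-- all but at most `N ^ (1 - η)` of the integers of `SC` in `[-N, N]` lie in `E`, for some
`η > 0` and all large `N` -/
def PS (C : Finset (ℕ × ℕ)) (E : Set ℤ) : Prop :=
  ∃ η : ℝ, 0 < η ∧ ∀ᶠ N : ℕ in atTop,
    (((Icc (-(N : ℤ)) N).filter (fun x => x ∈ SC G C ∧ x ∉ E)).card : ℝ) ≤ (N : ℝ) ^ (1 - η)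

open Classical in
/-- PACKAGE L5E (exponential version of `S_tail`) -/
def S_tailE : Prop := ∀ (G : GMap) (C : Finset (ℕ × ℕ)) (ρ : ℕ × ℕ → ℝ), IsClass G C →
  IsStat G C ρ → ∃ K : ℝ, 0 < K ∧ ∀ (X n : ℕ) (A s : ℝ), K ≤ X → 0 < s → s * K ≤ 1 →
    (∀ l ≤ n, K * Real.exp (l * mean C ρ (f2 G) + A) ≤ X) → ∀ B₀ ∈ C,
    (((Icc (-(X : ℤ)) X).filter (fun x => x ∈ cls G B₀ ∧
      ∃ l ≤ n, A < |S G (f1 G) B₀ x l - l * mean C ρ (f1 G)| ∨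
        A < |S G (f2 G) B₀ x l - l * mean C ρ (f2 G)|)).card : ℝ) ≤
      K * X * Real.exp (K * s ^ 2 * n - s * A)

/-- the law with power saving -/
def S_lawE : Prop := ∀ (G : GMap) (C : Finset (ℕ × ℕ)) (ρ : ℕ × ℕ → ℝ), IsClass G C →
  IsStat G C ρ → ∀ ε : ℝ, 0 < ε → PS G C {x : ℤ | ∀ k : ℕ,
    k * mean C ρ (f2 G) ≤ (1 - ε) * Real.log |(x : ℝ)| → ε * k ≤ Real.log |(x : ℝ)| →
    (T G)^[k] x ≠ 0 ∧ |Real.log |(((T G)^[k] x : ℤ) : ℝ)| -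
      (Real.log |(x : ℝ)| + k * mean C ρ (f1 G))| ≤ ε * Real.log |(x : ℝ)|}

/-- the exponents with power saving -/
def S_expE : Prop := ∀ (G : GMap) (C : Finset (ℕ × ℕ)) (ρ : ℕ × ℕ → ℝ), IsClass G C →
  IsStat G C ρ →
  (mean C ρ (f1 G) < 0 → ∀ θ : ℝ, mean C ρ (f0 G) < θ * mean C ρ (f2 G) →
    PS G C {x : ℤ | ∃ k : ℕ, |(((T G)^[k] x : ℤ) : ℝ)| ≤ |(x : ℝ)| ^ θ}) ∧
  (0 < mean C ρ (f1 G) → ∀ θ : ℝ, θ * mean C ρ (f2 G) < mean C ρ (f0 G) →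
    PS G C {x : ℤ | ∃ k : ℕ, |(x : ℝ)| ^ θ ≤ |(((T G)^[k] x : ℤ) : ℝ)|})

/-- PACKAGE L10 -/
def S_unit : Prop := ∀ (G : GMap) (C : Finset (ℕ × ℕ)) (ρ : ℕ × ℕ → ℝ), IsClass G C →
  IsStat G C ρ → (∀ B ∈ C, |G.m (B.1 % G.d)| = (dd G (B.1 % G.d) : ℤ)) →
  mean C ρ (f1 G) < 0 → ∀ x ∈ SC G C, ∃ i j : ℕ, i < j ∧ (T G)^[i] x = (T G)^[j] x

variable {G} {C : Finset (ℕ × ℕ)}

theorem ev_pow (M : ℝ) (η : ℝ) (hη : 0 < η) (hη1 : η < 1) :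
    ∀ᶠ N : ℕ in atTop, (N : ℝ) ^ (1 - η) + M ≤ (N : ℝ) ^ (1 - η / 2) := by
  have h1 : Tendsto (fun N : ℕ => (N : ℝ) ^ (η / 2)) atTop atTop :=
    (tendsto_rpow_atTop (by positivity)).comp tendsto_natCast_atTop_atTop
  have h2 : Tendsto (fun N : ℕ => (N : ℝ) ^ (1 - η)) atTop atTop :=
    (tendsto_rpow_atTop (by linarith)).comp tendsto_natCast_atTop_atTop
  filter_upwards [h1.eventually_ge_atTop 2, h2.eventually_ge_atTop M,
    eventually_gt_atTop 0] with N h3 h4 h5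
  have hN : (0 : ℝ) < N := by exact_mod_cast h5
  have h6 : (N : ℝ) ^ (1 - η / 2) = (N : ℝ) ^ (1 - η) * (N : ℝ) ^ (η / 2) := by
    rw [← Real.rpow_add hN]
    ring_nf
  rw [h6]
  have h7 : 0 < (N : ℝ) ^ (1 - η) := Real.rpow_pos_of_pos hN _
  nlinarith

/-- monotonicity, up to the integers `|x| < M` -/
theorem PS.mono {E F : Set ℤ} (M : ℝ) (hE : PS G C E)
    (h : ∀ x : ℤ, M ≤ |(x : ℝ)| → x ∈ E → x ∈ F) : PS G C F := by
  classical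
  obtain ⟨η0, hη0, hN0⟩ := hE
  set η := min η0 (1 / 2) with hηd
  have hη : 0 < η := lt_min hη0 (by norm_num)
  have hη1 : η < 1 := lt_of_le_of_lt (min_le_right _ _) (by norm_num)
  set S : Finset ℤ := Icc (-⌈M⌉) ⌈M⌉ with hS
  refine ⟨η / 2, by positivity, ?_⟩
  filter_upwards [hN0, ev_pow S.card η hη hη1, eventually_ge_atTop 1] with N h1 h2 h3
  have hN : (1 : ℝ) ≤ N := by exact_mod_cast h3
  have hsub : (Icc (-(N : ℤ)) N).filter (fun x => x ∈ SC G C ∧ x ∉ F) ⊆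
      (Icc (-(N : ℤ)) N).filter (fun x => x ∈ SC G C ∧ x ∉ E) ∪ S := by
    intro x hx
    rw [Finset.mem_filter] at hx
    rw [Finset.mem_union, Finset.mem_filter]
    by_cases hM : M ≤ |(x : ℝ)|
    · exact Or.inl ⟨hx.1, hx.2.1, fun hxE => hx.2.2 (h x hM hxE)⟩
    · right
      push Not at hM
      rw [hS, Finset.mem_Icc]
      have h4 : |(x : ℝ)| < ⌈M⌉ := lt_of_lt_of_le hM (Int.le_ceil M)
      rw [abs_lt] at h4
      have h5 : (-(⌈M⌉ : ℤ) : ℝ) < x := h4.1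
      constructor
      · exact_mod_cast h5.le
      · exact_mod_cast h4.2.le
  have hcard : (((Icc (-(N : ℤ)) N).filter (fun x => x ∈ SC G C ∧ x ∉ F)).card : ℝ) ≤
      (((Icc (-(N : ℤ)) N).filter (fun x => x ∈ SC G C ∧ x ∉ E)).card : ℝ) + S.card := by
    exact_mod_cast le_trans (Finset.card_le_card hsub) (Finset.card_union_le _ _)
  have h6 : (N : ℝ) ^ (1 - η0) ≤ (N : ℝ) ^ (1 - η) :=
    Real.rpow_le_rpow_of_exponent_le hN (by linarith [min_le_left η0 (1 / 2)])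
  linarith

end Pool.Agent.Helper65.LG
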