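import Pool.Agent.Helper63.LG.L2a
import Pool.Agent.Helper63.LG.L2b
import Pool.Agent.Helper68.LGC.L7

/-! The mean of `log (d / d i)` is the entropy of the chain. -/

set_option autoImplicit false

open Finset Filter Topology

namespace Pool.Agent.Helper65.LG

theorem ent_eq {G : GMap} {C : Finset (ℕ × ℕ)} {ρ : ℕ × ℕ → ℝ} (hC : IsClass G C)
    (hρ : IsStat G C ρ) :
    mean C ρ (f2 G) = ∑ B ∈ C, ρ B * Real.log ((G.d : ℝ) / gg G B) := by
  classical
  have hd : 0 < G.d := by have := G.hd; omega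
  have hdR : (0 : ℝ) < G.d := by exact_mod_cast hd
  have h1 : ∀ B ∈ C, f2 G B = Real.log ((G.d : ℝ) / gg G B) + Real.log B.2 -
      Real.log (kk G B) := by
    intro B hB
    obtain ⟨hk, hj⟩ := hC.state B hB
    have e1 := Pool.Agent.Helper63.LG.gg_kk G B
    have e2 : (0 : ℝ) < gg G B := by exact_mod_cast Pool.Agent.Helper63.LG.gg_pos G B
    have e3 : (0 : ℝ) < kk G B := by exact_mod_cast Pool.Agent.Helper63.LG.kk_pos G hk
    have e4 : (0 : ℝ) < dd G (B.1 % G.d) := by exact_mod_cast Pool.Agent.Helper63.LG.dd_pos G B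
    have e5 : (0 : ℝ) < B.2 := by exact_mod_cast hk
    have e6 : (gg G B : ℝ) * kk G B = B.2 * dd G (B.1 % G.d) := by exact_mod_cast e1
    have e7 := congrArg Real.log e6
    rw [Real.log_mul e2.ne' e3.ne', Real.log_mul e5.ne' e4.ne'] at e7
    unfold f2
    rw [Real.log_div hdR.ne' e4.ne', Real.log_div hdR.ne' e2.ne']
    linarith
  have h2 : ∀ B ∈ C, Real.log (kk G B) = ∑ B' ∈ C, P G B B' * Real.log B'.2 := by
    intro B hB
    obtain ⟨hk, hj⟩ := hC.state B hB
    have hs := Pool.Agent.Helper63.LG.step2 G B hk hj C (hC.closed B hB)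
    have e : ∀ B' ∈ C, P G B B' * Real.log B'.2 = P G B B' * Real.log (kk G B) := by
      intro B' _
      unfold P
      split_ifs with h
      · rw [h.1]
      · ring
    rw [sum_congr rfl e, ← sum_mul, hs, one_mul]
  have h3 : ∑ B ∈ C, ρ B * Real.log (kk G B) = ∑ B ∈ C, ρ B * Real.log B.2 := by
    calc ∑ B ∈ C, ρ B * Real.log (kk G B) =
        ∑ B ∈ C, ∑ B' ∈ C, ρ B * P G B B' * Real.log B'.2 := by
          refine sum_congr rfl fun B hB => ?_
          rw [h2 B hB, mul_sum]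
          exact sum_congr rfl fun B' _ => by ring
      _ = ∑ B' ∈ C, ∑ B ∈ C, ρ B * P G B B' * Real.log B'.2 := sum_comm
      _ = ∑ B' ∈ C, ρ B' * Real.log B'.2 := by
          refine sum_congr rfl fun B' hB' => ?_
          rw [← sum_mul, hρ.stat B' hB']
  unfold mean
  have e : ∀ B ∈ C, ρ B * f2 G B = ρ B * Real.log ((G.d : ℝ) / gg G B) +
      ρ B * Real.log B.2 - ρ B * Real.log (kk G B) := by
    intro B hB
    rw [h1 B hB]
    ring
  rw [sum_congr rfl e, sum_sub_distrib, sum_add_distrib, h3]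
  ring

theorem ent_nonneg {G : GMap} {C : Finset (ℕ × ℕ)} {ρ : ℕ × ℕ → ℝ} (hρ : IsStat G C ρ) :
    0 ≤ ∑ B ∈ C, ρ B * Real.log ((G.d : ℝ) / gg G B) := by
  have hd : 0 < G.d := by have := G.hd; omega
  refine sum_nonneg fun B hB => mul_nonneg (hρ.nonneg B hB) (Real.log_nonneg ?_)
  have e2 : (0 : ℝ) < gg G B := by exact_mod_cast Pool.Agent.Helper63.LG.gg_pos G B
  rw [le_div_iff₀ e2, one_mul]
  exact_mod_cast Nat.le_of_dvd hd (Pool.Agent.Helper63.LG.gg_dvd G B)

end Pool.Agent.Helper65.LG
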