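import Pool.Agent.Helper65.LG.Base

set_option autoImplicit false

open Finset Filter Topology

namespace Pool.Agent.Helper65.LG

theorem sqrt_small {x : ℤ} {N : ℕ} (h : (x : ℝ) ^ 2 < N) :
    x ∈ Icc (-(Nat.sqrt N : ℤ)) (Nat.sqrt N : ℤ) := by
  have h1 : x ^ 2 < N := by exact_mod_cast h
  have h2 : x.natAbs * x.natAbs < N := by
    have : ((x.natAbs * x.natAbs : ℕ) : ℤ) < N := by
      rw [Int.natCast_mul]
      have := Int.natAbs_mul_self (a := x)
      push_cast
      nlinarith [sq_abs x]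
    exact_mod_cast this
  have h3 : x.natAbs ≤ Nat.sqrt N := Nat.le_sqrt.mpr h2.le
  rw [Finset.mem_Icc]
  omega

theorem law (hT : S_tail) (hG : S_growth) (hM : S_mean) : S_law := by
  classical
  intro G C ρ hC hρ ε hε
  obtain ⟨K, hK, hTail⟩ := hT G C ρ hC hρ
  obtain ⟨A0, hGr⟩ := hG G C hC
  obtain ⟨hb0, hlam⟩ := hM G C ρ hC hρ
  set h := mean C ρ (f2 G) with hh
  set lam := mean C ρ (f1 G) with hlamd
  set ε1 : ℝ := min ε (1 / 2) with hε1
  have hε1p : 0 < ε1 := lt_min hε (by norm_num)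
  have hε1le : ε1 ≤ ε := min_le_left _ _
  have hε1h : ε1 ≤ 1 / 2 := min_le_right _ _
  set δ : ℝ := ε1 / 8 with hδ
  have hδp : 0 < δ := by positivity
  -- the exceptional bound
  set u : ℕ → ℝ := fun N => C.card * (K / (ε1 * δ ^ 2)) / Real.log N +
    3 * (Real.sqrt N)⁻¹ with hu
  have hlogtop : Tendsto (fun N : ℕ => Real.log N) atTop atTop :=
    Real.tendsto_log_atTop.comp tendsto_natCast_atTop_atTop
  have hsqrttop : Tendsto (fun N : ℕ => Real.sqrt N) atTop atTop :=
    Real.tendsto_sqrt_atTop.comp tendsto_natCast_atTop_atTop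
  have hu0 : Tendsto u atTop (𝓝 0) := by
    have h1 : Tendsto (fun N : ℕ => (C.card * (K / (ε1 * δ ^ 2)) : ℝ) / Real.log N) atTop
        (𝓝 0) := Tendsto.div_atTop tendsto_const_nhds hlogtop
    have h2 : Tendsto (fun N : ℕ => 3 * (Real.sqrt (N : ℝ))⁻¹) atTop (𝓝 (3 * 0)) :=
      (tendsto_inv_atTop_zero.comp hsqrttop).const_mul 3
    have := h1.add h2
    simpa [hu] using this
  refine ae_of_bound hC _ u hu0 ?_
  -- eventual conditions
  have e1 : ∀ᶠ N : ℕ in atTop, K ≤ δ * Real.log N :=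
    (hlogtop.const_mul_atTop hδp).eventually_ge_atTop K
  have e2 : ∀ᶠ N : ℕ in atTop, K ≤ (N : ℝ) :=
    tendsto_natCast_atTop_atTop.eventually_ge_atTop K
  have e3 : ∀ᶠ N : ℕ in atTop, K ≤ Real.exp ((ε1 - δ) * Real.log N) := by
    have : Tendsto (fun N : ℕ => Real.exp ((ε1 - δ) * Real.log N)) atTop atTop :=
      Real.tendsto_exp_atTop.comp (hlogtop.const_mul_atTop (by rw [hδ]; linarith))
    exact this.eventually_ge_atTop K
  have e4 : ∀ᶠ N : ℕ in atTop, A0 + Real.log (Real.log N / ε1 + 1) ≤ δ * Real.log N := by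
    have h1 : Tendsto (fun y : ℝ => δ * y - Real.log (y / ε1 + 1)) atTop atTop := by
      have h2 : (fun y : ℝ => Real.log (y / ε1 + 1)) =o[atTop] (fun y : ℝ => y / ε1 + 1) := by
        have h3 : Tendsto (fun y : ℝ => y / ε1 + 1) atTop atTop :=
          tendsto_atTop_add_const_right _ _ (tendsto_id.atTop_div_const hε1p)
        exact Real.isLittleO_log_id_atTop.comp_tendsto h3
      have h4 := h2.bound (c := δ * ε1 / 2) (by positivity)
      refine tendsto_atTop_mono' atTop ?_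
        (tendsto_atTop_add_const_right _ (-(δ * ε1 / 2))
          (tendsto_id.const_mul_atTop (show (0 : ℝ) < δ / 2 by positivity)))
      filter_upwards [h4, eventually_ge_atTop 0] with y hy hy0
      rw [Real.norm_eq_abs, Real.norm_eq_abs, abs_of_nonneg (by positivity : 0 ≤ y / ε1 + 1)]
        at hy
      have h5 := le_trans (le_abs_self _) hy
      have h6 : δ * ε1 / 2 * (y / ε1 + 1) = δ / 2 * y + δ * ε1 / 2 := by
        field_simp
      rw [h6] at h5
      simp only [id]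
      linarith
    have h7 := (h1.comp hlogtop).eventually_ge_atTop A0
    filter_upwards [h7] with N hN
    simp only [Function.comp] at hN
    linarith
  filter_upwards [e1, e2, e3, e4, eventually_ge_atTop 3] with N h1 h2 h3 h4 h5
  have hN : (0 : ℝ) < N := by
    have : (3 : ℝ) ≤ N := by exact_mod_cast h5
    linarith
  have hN1 : (1 : ℝ) < N := by
    have : (3 : ℝ) ≤ N := by exact_mod_cast h5
    linarith
  set L := Real.log N with hL
  have hLpos : 0 < L := Real.log_pos hN1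
  have hexpL : Real.exp L = N := Real.exp_log hN
  -- the number of steps
  let Pn : ℕ → Prop := fun k => (k : ℝ) * h ≤ (1 - ε1) * L ∧ ε1 * k ≤ L
  set n : ℕ := Nat.findGreatest Pn ⌊L / ε1⌋₊ with hn
  have hP0 : Pn 0 := by
    refine ⟨?_, ?_⟩
    · simp only [Nat.cast_zero, zero_mul]
      exact mul_nonneg (by linarith) hLpos.le
    · simp only [Nat.cast_zero, mul_zero]
      exact hLpos.le
  have hPn : Pn n := Nat.findGreatest_spec (P := Pn) (Nat.zero_le _) hP0
  have hle_n : ∀ k : ℕ, Pn k → k ≤ n := fun k hk => by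
    refine Nat.le_findGreatest ?_ hk
    exact Nat.le_floor (by rw [le_div_iff₀ hε1p]; linarith [hk.2])
  have hlh : ∀ l ≤ n, (l : ℝ) * h ≤ (1 - ε1) * L := by
    intro l hl
    rcases le_or_gt 0 h with h0 | h0
    · exact le_trans (mul_le_mul_of_nonneg_right (by exact_mod_cast hl) h0) hPn.1
    · have : (l : ℝ) * h ≤ 0 := mul_nonpos_of_nonneg_of_nonpos (by positivity) h0.le
      exact le_trans this (mul_nonneg (by linarith) hLpos.le)
  have hsize : ∀ l ≤ n, K * Real.exp (l * h + δ * L) ≤ N := by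
    intro l hl
    calc K * Real.exp (l * h + δ * L) ≤
        Real.exp ((ε1 - δ) * L) * Real.exp ((1 - ε1) * L + δ * L) :=
          mul_le_mul h3 (Real.exp_le_exp.mpr (by linarith [hlh l hl])) (Real.exp_pos _).le
            (Real.exp_pos _).le
      _ = Real.exp L := by rw [← Real.exp_add]; ring_nf
      _ = N := hexpL
  -- the covering
  set Bd : ℕ × ℕ → Finset ℤ := fun B₀ => (Icc (-(N : ℤ)) N).filter (fun x => x ∈ cls G B₀ ∧
      ∃ l ≤ n, δ * L < |S G (f1 G) B₀ x l - l * lam| ∨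
        δ * L < |S G (f2 G) B₀ x l - l * h|) with hBd
  have hcover : (Icc (-(N : ℤ)) N).filter (fun x => x ∈ SC G C ∧ x ∉ {x : ℤ | ∀ k : ℕ,
      k * h ≤ (1 - ε) * Real.log |(x : ℝ)| → ε * k ≤ Real.log |(x : ℝ)| →
      (T G)^[k] x ≠ 0 ∧ |Real.log |(((T G)^[k] x : ℤ) : ℝ)| -
        (Real.log |(x : ℝ)| + k * lam)| ≤ ε * Real.log |(x : ℝ)|}) ⊆
      C.biUnion Bd ∪ Icc (-(Nat.sqrt N : ℤ)) (Nat.sqrt N : ℤ) := by
    intro x hx
    rw [Finset.mem_filter] at hx
    obtain ⟨hxI, ⟨B₀, hB₀, hxB⟩, hxE⟩ := hx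
    rw [Finset.mem_union]
    by_contra hcon
    push Not at hcon
    obtain ⟨hc1, hc2⟩ := hcon
    apply hxE
    have hx2 : (N : ℝ) ≤ (x : ℝ) ^ 2 := by
      by_contra hlt
      push Not at hlt
      exact hc2 (sqrt_small hlt)
    have hx0 : x ≠ 0 := by
      rintro rfl
      norm_num at hx2
      linarith
    have habs : 0 < |(x : ℝ)| := abs_pos.mpr (by exact_mod_cast hx0)
    have hlogx : L / 2 ≤ Real.log |(x : ℝ)| := by
      have h6 : L ≤ Real.log (|(x : ℝ)| ^ 2) := Real.log_le_log hN (by rw [sq_abs]; exact hx2)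
      rw [Real.log_pow] at h6
      push_cast at h6
      linarith
    have hlogx' : Real.log |(x : ℝ)| ≤ L := by
      refine Real.log_le_log habs ?_
      rw [Finset.mem_Icc] at hxI
      rw [abs_le]
      constructor
      · exact_mod_cast hxI.1
      · exact_mod_cast hxI.2
    have hgood : ∀ l ≤ n, |S G (f1 G) B₀ x l - l * lam| ≤ δ * L := by
      intro l hl
      by_contra hlt
      push Not at hlt
      refine hc1 (Finset.mem_biUnion.mpr ⟨B₀, hB₀, ?_⟩)
      rw [hBd]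
      exact Finset.mem_filter.mpr ⟨hxI, hxB, l, hl, Or.inl hlt⟩
    rw [Set.mem_ofPred_eq]
    intro k hk1 hk2
    have hlx0 : 0 ≤ Real.log |(x : ℝ)| := by linarith
    have hk1' : (k : ℝ) * h ≤ (1 - ε1) * Real.log |(x : ℝ)| :=
      le_trans hk1 (mul_le_mul_of_nonneg_right (by linarith) hlx0)
    have hk2' : ε1 * k ≤ Real.log |(x : ℝ)| :=
      le_trans (mul_le_mul_of_nonneg_right hε1le (by positivity)) hk2
    have hkn : k ≤ n := hle_n k ⟨le_trans hk1' (mul_le_mul_of_nonneg_left hlogx'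
      (by linarith)), le_trans hk2' hlogx'⟩
    have hloglk : A0 + Real.log (k + 1) ≤ δ * L := by
      refine le_trans (add_le_add_right (Real.log_le_log (by positivity) ?_) _) h4
      have : (k : ℝ) ≤ L / ε1 := by
        rw [le_div_iff₀ hε1p]
        linarith
      linarith
    have hdrift : ∀ l ≤ k, 3 * (δ * L) ≤ Real.log |(x : ℝ)| + l * lam := by
      intro l hl
      have h6 : (l : ℝ) * h ≤ (1 - ε1) * Real.log |(x : ℝ)| := by
        rcases le_or_gt 0 h with h0 | h0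
        · exact le_trans (mul_le_mul_of_nonneg_right (by exact_mod_cast hl) h0) hk1'
        · have : (l : ℝ) * h ≤ 0 := mul_nonpos_of_nonneg_of_nonpos (by positivity) h0.le
          exact le_trans this (mul_nonneg (by linarith) hlx0)
      have h7 : -((l : ℝ) * h) ≤ l * lam := by
        rw [hlam]
        have : 0 ≤ (l : ℝ) * mean C ρ (f0 G) := by positivity
        linarith
      have h8 : 3 * (δ * L) ≤ ε1 * Real.log |(x : ℝ)| := by
        rw [hδ]
        nlinarith
      linarith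
    obtain ⟨h9, h10⟩ := hGr lam (δ * L) B₀ x k hB₀ hxB hloglk hx0
      (fun l hl => hgood l (le_trans hl hkn)) hdrift k le_rfl
    refine ⟨h9, le_trans h10 ?_⟩
    have h11 : 2 * (δ * L) ≤ ε1 * Real.log |(x : ℝ)| := by
      rw [hδ]
      nlinarith
    exact le_trans h11 (mul_le_mul_of_nonneg_right hε1le hlx0)
  -- counting
  have hcard1 : ∀ B₀ ∈ C, ((Bd B₀).card : ℝ) ≤ K / (ε1 * δ ^ 2) / L * N := by
    intro B₀ hB₀
    have h6 := hTail N n (δ * L) h1 h2 hsize B₀ hB₀
    refine le_trans h6 ?_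
    have h7 : (n : ℝ) ≤ L / ε1 := by
      rw [le_div_iff₀ hε1p]
      linarith [hPn.2]
    calc K * N * n / (δ * L) ^ 2 ≤ K * N * (L / ε1) / (δ * L) ^ 2 := by gcongr
      _ = K / (ε1 * δ ^ 2) / L * N := by
          field_simp
  have hcard2 : ((Icc (-(Nat.sqrt N : ℤ)) (Nat.sqrt N : ℤ)).card : ℝ) ≤
      3 * (Real.sqrt N)⁻¹ * N := by
    rw [Int.card_Icc]
    have h6 : ((Nat.sqrt N : ℤ) + 1 - -(Nat.sqrt N : ℤ)).toNat = 2 * Nat.sqrt N + 1 := by
      omega
    rw [h6]
    have h7 : ((Nat.sqrt N : ℕ) : ℝ) ≤ Real.sqrt N := Real.nat_sqrt_le_real_sqrt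
    have h8 : (1 : ℝ) ≤ Real.sqrt N := by
      rw [Real.one_le_sqrt]
      exact hN1.le
    have h9 : (Real.sqrt N)⁻¹ * N = Real.sqrt N := by
      have h10 : (0 : ℝ) < Real.sqrt N := by linarith
      field_simp
      exact (Real.sq_sqrt hN.le).symm
    rw [mul_assoc, h9]
    push_cast
    linarith
  have hfin : (((Icc (-(N : ℤ)) N).filter (fun x => x ∈ SC G C ∧ x ∉ {x : ℤ | ∀ k : ℕ,
      k * h ≤ (1 - ε) * Real.log |(x : ℝ)| → ε * k ≤ Real.log |(x : ℝ)| →
      (T G)^[k] x ≠ 0 ∧ |Real.log |(((T G)^[k] x : ℤ) : ℝ)| -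
        (Real.log |(x : ℝ)| + k * lam)| ≤ ε * Real.log |(x : ℝ)|})).card : ℝ) ≤
      ∑ B₀ ∈ C, ((Bd B₀).card : ℝ) + (Icc (-(Nat.sqrt N : ℤ)) (Nat.sqrt N : ℤ)).card := by
    have h6 := Finset.card_le_card hcover
    have h7 := le_trans h6 (Finset.card_union_le _ _)
    have h8 := le_trans h7 (Nat.add_le_add_right Finset.card_biUnion_le _)
    exact_mod_cast h8
  refine le_trans hfin ?_
  have hsumB : ∑ B₀ ∈ C, ((Bd B₀).card : ℝ) ≤ C.card * (K / (ε1 * δ ^ 2) / L * N) := by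
    have := Finset.sum_le_card_nsmul C (fun B₀ => ((Bd B₀).card : ℝ)) _ hcard1
    rwa [nsmul_eq_mul] at this
  calc _ ≤ C.card * (K / (ε1 * δ ^ 2) / L * N) + 3 * (Real.sqrt N)⁻¹ * N :=
        add_le_add hsumB hcard2
    _ = u N * N := by rw [hu]; ring

end Pool.Agent.Helper65.LG
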