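import Pool.Agent.Helper65.LG.Defs2
import Pool.Agent.Helper65.LG.L6

set_option autoImplicit false

open Finset Filter Topology

namespace Pool.Agent.Helper65.LG

theorem lawE (hT : S_tailE) (hG : S_growth) (hM : S_mean) : S_lawE := by
  classical
  intro G C ρ hC hρ ε hε
  obtain ⟨K, hK, hTail⟩ := hT G C ρ hC hρ
  obtain ⟨A0, hGr⟩ := hG G C hC
  obtain ⟨hb0, hlam⟩ := hM G C ρ hC hρ
  set h := mean C ρ (f2 G) with hh
  set lam := mean C ρ (f1 G) with hlamd
  set ε1 : ℝ := min ε (1 / 2) with hε1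
  have hε1p : 0 < ε1 := lt_min hε (by norm_num)
  have hε1le : ε1 ≤ ε := min_le_left _ _
  have hε1h : ε1 ≤ 1 / 2 := min_le_right _ _
  set δ : ℝ := ε1 / 8 with hδ
  have hδp : 0 < δ := by positivity
  -- the parameter of the exponential moment
  set s : ℝ := min (δ * ε1 / (2 * K)) (1 / K) with hs
  have hsp : 0 < s := lt_min (by positivity) (by positivity)
  have hsK : s * K ≤ 1 := by
    have : s ≤ 1 / K := min_le_right _ _
    calc s * K ≤ 1 / K * K := mul_le_mul_of_nonneg_right this hK.le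
      _ = 1 := by field_simp
  have hs2 : K * s ≤ δ * ε1 / 2 := by
    have : s ≤ δ * ε1 / (2 * K) := min_le_left _ _
    calc K * s ≤ K * (δ * ε1 / (2 * K)) := mul_le_mul_of_nonneg_left this hK.le
      _ = δ * ε1 / 2 := by field_simp
  set η : ℝ := min (s * δ / 4) (1 / 4) with hη
  have hηp : 0 < η := lt_min (by positivity) (by norm_num)
  have hη1 : η ≤ s * δ / 4 := min_le_left _ _
  have hη2 : η ≤ 1 / 4 := min_le_right _ _
  refine ⟨η, hηp, ?_⟩
  have hlogtop : Tendsto (fun N : ℕ => Real.log N) atTop atTop :=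
    Real.tendsto_log_atTop.comp tendsto_natCast_atTop_atTop
  -- eventual conditions
  have e1 : ∀ᶠ N : ℕ in atTop, 2 * (C.card * K) ≤ (N : ℝ) ^ (s * δ / 4) :=
    ((tendsto_rpow_atTop (by positivity)).comp tendsto_natCast_atTop_atTop).eventually_ge_atTop _
  have e1' : ∀ᶠ N : ℕ in atTop, 6 ≤ (N : ℝ) ^ ((1 : ℝ) / 4) :=
    ((tendsto_rpow_atTop (by norm_num)).comp tendsto_natCast_atTop_atTop).eventually_ge_atTop _
  have e2 : ∀ᶠ N : ℕ in atTop, K ≤ (N : ℝ) :=
    tendsto_natCast_atTop_atTop.eventually_ge_atTop K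
  have e3 : ∀ᶠ N : ℕ in atTop, K ≤ Real.exp ((ε1 - δ) * Real.log N) := by
    have : Tendsto (fun N : ℕ => Real.exp ((ε1 - δ) * Real.log N)) atTop atTop :=
      Real.tendsto_exp_atTop.comp (hlogtop.const_mul_atTop (by rw [hδ]; linarith))
    exact this.eventually_ge_atTop K
  have e4 : ∀ᶠ N : ℕ in atTop, A0 + Real.log (Real.log N / ε1 + 1) ≤ δ * Real.log N := by
    have h1 : Tendsto (fun y : ℝ => δ * y - Real.log (y / ε1 + 1)) atTop atTop := by
      have h2 : (fun y : ℝ => Real.log (y / ε1 + 1)) =o[atTop] (fun y : ℝ => y / ε1 + 1) := by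
        have h3 : Tendsto (fun y : ℝ => y / ε1 + 1) atTop atTop :=
          tendsto_atTop_add_const_right _ _ (tendsto_id.atTop_div_const hε1p)
        exact Real.isLittleO_log_id_atTop.comp_tendsto h3
      have h4 := h2.bound (c := δ * ε1 / 2) (by positivity)
      refine tendsto_atTop_mono' atTop ?_
        (tendsto_atTop_add_const_right _ (-(δ * ε1 / 2))
          (tendsto_id.const_mul_atTop (show (0 : ℝ) < δ / 2 by positivity)))
      filter_upwards [h4, eventually_ge_atTop 0] with y hy hy0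
      rw [Real.norm_eq_abs, Real.norm_eq_abs, abs_of_nonneg (by positivity : 0 ≤ y / ε1 + 1)]
        at hy
      have h5 := le_trans (le_abs_self _) hy
      have h6 : δ * ε1 / 2 * (y / ε1 + 1) = δ / 2 * y + δ * ε1 / 2 := by
        field_simp
      rw [h6] at h5
      simp only [id]
      linarith
    have h7 := (h1.comp hlogtop).eventually_ge_atTop A0
    filter_upwards [h7] with N hN
    simp only [Function.comp] at hN
    linarith
  filter_upwards [e1, e1', e2, e3, e4, eventually_ge_atTop 3] with N h1 h1' h2 h3 h4 h5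
  have hN : (0 : ℝ) < N := by
    have : (3 : ℝ) ≤ N := by exact_mod_cast h5
    linarith
  have hN1 : (1 : ℝ) < N := by
    have : (3 : ℝ) ≤ N := by exact_mod_cast h5
    linarith
  set L := Real.log N with hL
  have hLpos : 0 < L := Real.log_pos hN1
  have hexpL : Real.exp L = N := Real.exp_log hN
  -- the number of steps
  let Pn : ℕ → Prop := fun k => (k : ℝ) * h ≤ (1 - ε1) * L ∧ ε1 * k ≤ L
  set n : ℕ := Nat.findGreatest Pn ⌊L / ε1⌋₊ with hn
  have hP0 : Pn 0 := by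
    refine ⟨?_, ?_⟩
    · simp only [Nat.cast_zero, zero_mul]
      exact mul_nonneg (by linarith) hLpos.le
    · simp only [Nat.cast_zero, mul_zero]
      exact hLpos.le
  have hPn : Pn n := Nat.findGreatest_spec (P := Pn) (Nat.zero_le _) hP0
  have hle_n : ∀ k : ℕ, Pn k → k ≤ n := fun k hk => by
    refine Nat.le_findGreatest ?_ hk
    exact Nat.le_floor (by rw [le_div_iff₀ hε1p]; linarith [hk.2])
  have hlh : ∀ l ≤ n, (l : ℝ) * h ≤ (1 - ε1) * L := by
    intro l hl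
    rcases le_or_gt 0 h with h0 | h0
    · exact le_trans (mul_le_mul_of_nonneg_right (by exact_mod_cast hl) h0) hPn.1
    · have : (l : ℝ) * h ≤ 0 := mul_nonpos_of_nonneg_of_nonpos (by positivity) h0.le
      exact le_trans this (mul_nonneg (by linarith) hLpos.le)
  have hsize : ∀ l ≤ n, K * Real.exp (l * h + δ * L) ≤ N := by
    intro l hl
    calc K * Real.exp (l * h + δ * L) ≤
        Real.exp ((ε1 - δ) * L) * Real.exp ((1 - ε1) * L + δ * L) :=
          mul_le_mul h3 (Real.exp_le_exp.mpr (by linarith [hlh l hl])) (Real.exp_pos _).le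
            (Real.exp_pos _).le
      _ = Real.exp L := by rw [← Real.exp_add]; ring_nf
      _ = N := hexpL
  -- the covering
  set Bd : ℕ × ℕ → Finset ℤ := fun B₀ => (Icc (-(N : ℤ)) N).filter (fun x => x ∈ cls G B₀ ∧
      ∃ l ≤ n, δ * L < |S G (f1 G) B₀ x l - l * lam| ∨
        δ * L < |S G (f2 G) B₀ x l - l * h|) with hBd
  have hcover : (Icc (-(N : ℤ)) N).filter (fun x => x ∈ SC G C ∧ x ∉ {x : ℤ | ∀ k : ℕ,
      k * h ≤ (1 - ε) * Real.log |(x : ℝ)| → ε * k ≤ Real.log |(x : ℝ)| →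
      (T G)^[k] x ≠ 0 ∧ |Real.log |(((T G)^[k] x : ℤ) : ℝ)| -
        (Real.log |(x : ℝ)| + k * lam)| ≤ ε * Real.log |(x : ℝ)|}) ⊆
      C.biUnion Bd ∪ Icc (-(Nat.sqrt N : ℤ)) (Nat.sqrt N : ℤ) := by
    intro x hx
    rw [Finset.mem_filter] at hx
    obtain ⟨hxI, ⟨B₀, hB₀, hxB⟩, hxE⟩ := hx
    rw [Finset.mem_union]
    by_contra hcon
    push Not at hcon
    obtain ⟨hc1, hc2⟩ := hcon
    apply hxE
    have hx2 : (N : ℝ) ≤ (x : ℝ) ^ 2 := by
      by_contra hlt
      push Not at hlt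
      exact hc2 (sqrt_small hlt)
    have hx0 : x ≠ 0 := by
      rintro rfl
      norm_num at hx2
      linarith
    have habs : 0 < |(x : ℝ)| := abs_pos.mpr (by exact_mod_cast hx0)
    have hlogx : L / 2 ≤ Real.log |(x : ℝ)| := by
      have h6 : L ≤ Real.log (|(x : ℝ)| ^ 2) := Real.log_le_log hN (by rw [sq_abs]; exact hx2)
      rw [Real.log_pow] at h6
      push_cast at h6
      linarith
    have hlogx' : Real.log |(x : ℝ)| ≤ L := by
      refine Real.log_le_log habs ?_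
      rw [Finset.mem_Icc] at hxI
      rw [abs_le]
      constructor
      · exact_mod_cast hxI.1
      · exact_mod_cast hxI.2
    have hgood : ∀ l ≤ n, |S G (f1 G) B₀ x l - l * lam| ≤ δ * L := by
      intro l hl
      by_contra hlt
      push Not at hlt
      refine hc1 (Finset.mem_biUnion.mpr ⟨B₀, hB₀, ?_⟩)
      rw [hBd]
      exact Finset.mem_filter.mpr ⟨hxI, hxB, l, hl, Or.inl hlt⟩
    rw [Set.mem_ofPred_eq]
    intro k hk1 hk2
    have hlx0 : 0 ≤ Real.log |(x : ℝ)| := by linarith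
    have hk1' : (k : ℝ) * h ≤ (1 - ε1) * Real.log |(x : ℝ)| :=
      le_trans hk1 (mul_le_mul_of_nonneg_right (by linarith) hlx0)
    have hk2' : ε1 * k ≤ Real.log |(x : ℝ)| :=
      le_trans (mul_le_mul_of_nonneg_right hε1le (by positivity)) hk2
    have hkn : k ≤ n := hle_n k ⟨le_trans hk1' (mul_le_mul_of_nonneg_left hlogx'
      (by linarith)), le_trans hk2' hlogx'⟩
    have hloglk : A0 + Real.log (k + 1) ≤ δ * L := by
      refine le_trans (add_le_add_right (Real.log_le_log (by positivity) ?_) _) h4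
      have : (k : ℝ) ≤ L / ε1 := by
        rw [le_div_iff₀ hε1p]
        linarith
      linarith
    have hdrift : ∀ l ≤ k, 3 * (δ * L) ≤ Real.log |(x : ℝ)| + l * lam := by
      intro l hl
      have h6 : (l : ℝ) * h ≤ (1 - ε1) * Real.log |(x : ℝ)| := by
        rcases le_or_gt 0 h with h0 | h0
        · exact le_trans (mul_le_mul_of_nonneg_right (by exact_mod_cast hl) h0) hk1'
        · have : (l : ℝ) * h ≤ 0 := mul_nonpos_of_nonneg_of_nonpos (by positivity) h0.le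
          exact le_trans this (mul_nonneg (by linarith) hlx0)
      have h7 : -((l : ℝ) * h) ≤ l * lam := by
        rw [hlam]
        have : 0 ≤ (l : ℝ) * mean C ρ (f0 G) := by positivity
        linarith
      have h8 : 3 * (δ * L) ≤ ε1 * Real.log |(x : ℝ)| := by
        rw [hδ]
        nlinarith
      linarith
    obtain ⟨h9, h10⟩ := hGr lam (δ * L) B₀ x k hB₀ hxB hloglk hx0
      (fun l hl => hgood l (le_trans hl hkn)) hdrift k le_rfl
    refine ⟨h9, le_trans h10 ?_⟩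
    have h11 : 2 * (δ * L) ≤ ε1 * Real.log |(x : ℝ)| := by
      rw [hδ]
      nlinarith
    exact le_trans h11 (mul_le_mul_of_nonneg_right hε1le hlx0)
  -- counting
  have hcard1 : ∀ B₀ ∈ C, ((Bd B₀).card : ℝ) ≤ K * (N : ℝ) ^ (1 - s * δ / 2) := by
    intro B₀ hB₀
    have h6 := hTail N n (δ * L) s h2 hsp hsK hsize B₀ hB₀
    refine le_trans h6 ?_
    have h7 : (n : ℝ) ≤ L / ε1 := by
      rw [le_div_iff₀ hε1p]
      linarith [hPn.2]
    have h8 : K * s ^ 2 * n - s * (δ * L) ≤ -(s * δ / 2) * L := by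
      have h9 : K * s ^ 2 * n ≤ s * (δ * ε1 / 2) * (L / ε1) := by
        calc K * s ^ 2 * n = s * (K * s) * n := by ring
          _ ≤ s * (δ * ε1 / 2) * (L / ε1) := by gcongr
      have h10 : s * (δ * ε1 / 2) * (L / ε1) = s * δ / 2 * L := by
        field_simp
      rw [h10] at h9
      linarith
    have h11 : Real.exp (K * s ^ 2 * n - s * (δ * L)) ≤ (N : ℝ) ^ (-(s * δ / 2)) := by
      rw [Real.rpow_def_of_pos hN]
      exact Real.exp_le_exp.mpr (by rw [← hL]; linarith)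
    calc K * N * Real.exp (K * s ^ 2 * n - s * (δ * L)) ≤
        K * N * (N : ℝ) ^ (-(s * δ / 2)) := by gcongr
      _ = K * (N : ℝ) ^ (1 - s * δ / 2) := by
          rw [mul_assoc]
          congr 1
          rw [show (1 : ℝ) - s * δ / 2 = 1 + -(s * δ / 2) by ring, Real.rpow_add hN,
            Real.rpow_one]
  have hcard2 : ((Icc (-(Nat.sqrt N : ℤ)) (Nat.sqrt N : ℤ)).card : ℝ) ≤
      3 * (N : ℝ) ^ ((1 : ℝ) / 2) := by
    rw [Int.card_Icc]
    have h6 : ((Nat.sqrt N : ℤ) + 1 - -(Nat.sqrt N : ℤ)).toNat = 2 * Nat.sqrt N + 1 := by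
      omega
    rw [h6, ← Real.sqrt_eq_rpow]
    have h7 : ((Nat.sqrt N : ℕ) : ℝ) ≤ Real.sqrt N := Real.nat_sqrt_le_real_sqrt
    have h8 : (1 : ℝ) ≤ Real.sqrt N := by
      rw [Real.one_le_sqrt]
      exact hN1.le
    push_cast
    linarith
  have hfin : (((Icc (-(N : ℤ)) N).filter (fun x => x ∈ SC G C ∧ x ∉ {x : ℤ | ∀ k : ℕ,
      k * h ≤ (1 - ε) * Real.log |(x : ℝ)| → ε * k ≤ Real.log |(x : ℝ)| →
      (T G)^[k] x ≠ 0 ∧ |Real.log |(((T G)^[k] x : ℤ) : ℝ)| -
        (Real.log |(x : ℝ)| + k * lam)| ≤ ε * Real.log |(x : ℝ)|})).card : ℝ) ≤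
      ∑ B₀ ∈ C, ((Bd B₀).card : ℝ) + (Icc (-(Nat.sqrt N : ℤ)) (Nat.sqrt N : ℤ)).card := by
    have h6 := Finset.card_le_card hcover
    have h7 := le_trans h6 (Finset.card_union_le _ _)
    have h8 := le_trans h7 (Nat.add_le_add_right Finset.card_biUnion_le _)
    exact_mod_cast h8
  refine le_trans hfin ?_
  have hsumB : ∑ B₀ ∈ C, ((Bd B₀).card : ℝ) ≤ C.card * (K * (N : ℝ) ^ (1 - s * δ / 2)) := by
    have := Finset.sum_le_card_nsmul C (fun B₀ => ((Bd B₀).card : ℝ)) _ hcard1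
    rwa [nsmul_eq_mul] at this
  have h20 : (N : ℝ) ^ (1 - s * δ / 4) ≤ (N : ℝ) ^ (1 - η) :=
    Real.rpow_le_rpow_of_exponent_le hN1.le (by linarith)
  have h21 : 2 * (C.card * (K * (N : ℝ) ^ (1 - s * δ / 2))) ≤ (N : ℝ) ^ (1 - s * δ / 4) := by
    have h22 : (N : ℝ) ^ (1 - s * δ / 4) = (N : ℝ) ^ (s * δ / 4) * (N : ℝ) ^ (1 - s * δ / 2) := by
      rw [← Real.rpow_add hN]
      ring_nf
    rw [h22]
    have h23 : 0 < (N : ℝ) ^ (1 - s * δ / 2) := Real.rpow_pos_of_pos hN _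
    calc 2 * (C.card * (K * (N : ℝ) ^ (1 - s * δ / 2))) =
        2 * (C.card * K) * (N : ℝ) ^ (1 - s * δ / 2) := by ring
      _ ≤ _ := mul_le_mul_of_nonneg_right h1 h23.le
  have h24 : 2 * (3 * (N : ℝ) ^ ((1 : ℝ) / 2)) ≤ (N : ℝ) ^ (1 - η) := by
    have h25 : (N : ℝ) ^ ((3 : ℝ) / 4) = (N : ℝ) ^ ((1 : ℝ) / 4) * (N : ℝ) ^ ((1 : ℝ) / 2) := by
      rw [← Real.rpow_add hN]
      norm_num
    have h26 : (N : ℝ) ^ ((3 : ℝ) / 4) ≤ (N : ℝ) ^ (1 - η) :=
      Real.rpow_le_rpow_of_exponent_le hN1.le (by linarith)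
    have h27 : 0 < (N : ℝ) ^ ((1 : ℝ) / 2) := Real.rpow_pos_of_pos hN _
    have h28 : 6 * (N : ℝ) ^ ((1 : ℝ) / 2) ≤ (N : ℝ) ^ ((1 : ℝ) / 4) * (N : ℝ) ^ ((1 : ℝ) / 2) :=
      mul_le_mul_of_nonneg_right h1' h27.le
    linarith
  linarith

end Pool.Agent.Helper65.LG
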