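import Pool.Agent.Helper65.LG.CountI

/-! The exponential tail bound, in any interval (after helper22's package L5). -/

set_option autoImplicit false

namespace Pool.Agent.Helper65.LG.TI

open Finset Filter Topology Pool.Agent.Helper65.LG Pool.Agent.Helper65.LG.CI

open Classical in
/-- few bad integers, exponential version in intervals -/
def S_tailI : Prop := ∀ (G : GMap) (C : Finset (ℕ × ℕ)) (ρ : ℕ × ℕ → ℝ), IsClass G C →
  IsStat G C ρ → ∃ K : ℝ, 0 < K ∧ ∀ (u : ℤ) (X n : ℕ) (A s : ℝ), K ≤ X → 0 < s → s * K ≤ 1 →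
    (∀ l ≤ n, K * Real.exp (l * mean C ρ (f2 G) + A) ≤ X) → ∀ B₀ ∈ C,
    (((Icc (u - (X : ℤ)) (u + X)).filter (fun x => x ∈ cls G B₀ ∧
      ∃ l ≤ n, A < |S G (f1 G) B₀ x l - l * mean C ρ (f1 G)| ∨
        A < |S G (f2 G) B₀ x l - l * mean C ρ (f2 G)|)).card : ℝ) ≤
      K * X * Real.exp (K * s ^ 2 * n - s * A)

theorem path_mem (h1 : S_step1) {G : GMap} {C : Finset (ℕ × ℕ)} (hC : IsClass G C) {B₀ : ℕ × ℕ}
    (hB : B₀ ∈ C) {x : ℤ} (hx : x ∈ cls G B₀) (l : ℕ) :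
    Y G B₀ x l ∈ C ∧ (T G)^[l] x ∈ cls G (Y G B₀ x l) := by
  induction l with
  | zero => exact ⟨hB, hx⟩
  | succ l ih =>
    obtain ⟨h2, h3⟩ := ih
    obtain ⟨h4, h5⟩ := hC.state _ h2
    obtain ⟨h6, h7⟩ := (h1 G _ h4 h5).2.1 _ h3
    refine ⟨hC.closed _ h2 _ h6, ?_⟩
    rw [Function.iterate_succ_apply']
    exact h7

theorem P_nonneg (G : GMap) (B B' : ℕ × ℕ) : 0 ≤ P G B B' := by
  classical
  unfold P
  split_ifs
  · positivity
  · exact le_rfl

/-- sum of absolute values -/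
noncomputable def bd (C : Finset (ℕ × ℕ)) (φ : ℕ × ℕ → ℝ) : ℝ := ∑ B ∈ C, |φ B|

theorem bd_nonneg (C : Finset (ℕ × ℕ)) (φ : ℕ × ℕ → ℝ) : 0 ≤ bd C φ :=
  sum_nonneg fun _ _ => abs_nonneg _

theorem le_bd {C : Finset (ℕ × ℕ)} (φ : ℕ × ℕ → ℝ) {B : ℕ × ℕ} (hB : B ∈ C) : |φ B| ≤ bd C φ :=
  single_le_sum (f := fun B => |φ B|) (fun _ _ => abs_nonneg _) hB

theorem exp_step {C : Finset (ℕ × ℕ)} {p δ : ℕ × ℕ → ℝ} {m σ s D : ℝ} (hp : ∀ B ∈ C, 0 ≤ p B)
    (hs : ∑ B ∈ C, p B = 1) (h0 : ∑ B ∈ C, p B * δ B = 0) (hD : ∀ B ∈ C, |δ B| ≤ D)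
    (hD0 : 0 ≤ D) (hσ : |σ| = 1) (hs0 : 0 < s) (hsD : s * D ≤ 1) :
    ∑ B ∈ C, p B * Real.exp (σ * s * (m + δ B)) ≤ Real.exp (σ * s * m + s ^ 2 * D ^ 2) := by
  have hb : ∀ B ∈ C, p B * Real.exp (σ * s * (m + δ B)) ≤
      Real.exp (σ * s * m) * (p B * (1 + s ^ 2 * D ^ 2) + σ * s * (p B * δ B)) := by
    intro B hB
    have h1 : |σ * s * δ B| ≤ s * D := by
      rw [abs_mul, abs_mul, hσ, one_mul, abs_of_pos hs0]
      exact mul_le_mul_of_nonneg_left (hD B hB) hs0.le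
    have h2 := Real.abs_exp_sub_one_sub_id_le (le_trans h1 hsD)
    have h3 : (σ * s * δ B) ^ 2 ≤ s ^ 2 * D ^ 2 := by
      rw [← sq_abs, ← mul_pow]
      exact pow_le_pow_left₀ (abs_nonneg _) h1 2
    have h4 : Real.exp (σ * s * δ B) ≤ 1 + σ * s * δ B + s ^ 2 * D ^ 2 := by
      have := (abs_le.1 h2).2
      linarith
    rw [mul_add, Real.exp_add]
    calc p B * (Real.exp (σ * s * m) * Real.exp (σ * s * δ B)) ≤
        p B * (Real.exp (σ * s * m) * (1 + σ * s * δ B + s ^ 2 * D ^ 2)) := by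
          refine mul_le_mul_of_nonneg_left ?_ (hp B hB)
          exact mul_le_mul_of_nonneg_left h4 (Real.exp_pos _).le
      _ = _ := by ring
  refine le_trans (sum_le_sum hb) ?_
  rw [← mul_sum, sum_add_distrib, ← sum_mul, ← mul_sum, hs, h0, mul_zero, add_zero, one_mul,
    Real.exp_add]
  refine mul_le_mul_of_nonneg_left ?_ (Real.exp_pos _).le
  have := Real.add_one_le_exp (s ^ 2 * D ^ 2)
  linarith

/-- bound for the increments -/
noncomputable def inc (C : Finset (ℕ × ℕ)) (ρ f g : ℕ × ℕ → ℝ) : ℝ :=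
  bd C f + |mean C ρ f| + 2 * bd C g

theorem inc_nonneg (C : Finset (ℕ × ℕ)) (ρ f g : ℕ × ℕ → ℝ) : 0 ≤ inc C ρ f g := by
  have h1 := bd_nonneg C f
  have h2 := bd_nonneg C g
  have h3 := abs_nonneg (mean C ρ f)
  unfold inc
  linarith

/-- one of the four terms -/
noncomputable def term (D A s M : ℝ) (n : ℕ) (f g : ℕ × ℕ → ℝ) (μ g0 σ : ℝ) (l : ℕ) (w : ℝ)
    (B : ℕ × ℕ) : ℝ :=
  Real.exp (σ * s * (w - l * μ + g B - g0) + s ^ 2 * D ^ 2 * ((n - l : ℕ) : ℝ) - s * A + s * M)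

theorem term_step {G : GMap} {C : Finset (ℕ × ℕ)} (h2 : S_step2) (hC : IsClass G C)
    {ρ f g : ℕ × ℕ → ℝ} {D A s M σ : ℝ} (hc : inc C ρ f g ≤ D) (hσ : |σ| = 1) (hs0 : 0 < s)
    (hsD : s * D ≤ 1)
    (hg : ∀ B ∈ C, g B - ∑ B' ∈ C, P G B B' * g B' = f B - mean C ρ f)
    {n l : ℕ} (hl : l < n) (w g0 : ℝ) {B : ℕ × ℕ} (hB : B ∈ C) :
    ∑ B' ∈ C, P G B B' * term D A s M n f g (mean C ρ f) g0 σ (l + 1) (w + f B) B' ≤
      term D A s M n f g (mean C ρ f) g0 σ l w B := by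
  have hs : ∑ B' ∈ C, P G B B' = 1 :=
    h2 G B (hC.state B hB).1 (hC.state B hB).2 C fun B' h => hC.closed B hB B' h
  have h0 : ∑ B' ∈ C, P G B B' * (f B - mean C ρ f + g B' - g B) = 0 := by
    have e : ∀ B' ∈ C, P G B B' * (f B - mean C ρ f + g B' - g B) =
        P G B B' * (f B - mean C ρ f - g B) + P G B B' * g B' := fun B' _ => by ring
    rw [sum_congr rfl e, sum_add_distrib, ← sum_mul, hs]
    linarith [hg B hB]
  have hD0 : 0 ≤ D := le_trans (inc_nonneg C ρ f g) hc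
  have hd : ∀ B' ∈ C, |f B - mean C ρ f + g B' - g B| ≤ D := by
    intro B' hB'
    refine le_trans ?_ hc
    unfold inc
    have k1 := le_bd f hB
    have k2 := le_bd g hB
    have k3 := le_bd g hB'
    calc |f B - mean C ρ f + g B' - g B| ≤ |f B - mean C ρ f + g B'| + |g B| := abs_sub _ _
      _ ≤ |f B - mean C ρ f| + |g B'| + |g B| := by gcongr; exact abs_add_le _ _
      _ ≤ |f B| + |mean C ρ f| + |g B'| + |g B| := by gcongr; exact abs_sub _ _
      _ ≤ _ := by linarith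
  have h3 := exp_step (m := w - l * mean C ρ f + g B - g0) (σ := σ) (fun B' _ => P_nonneg G B B')
    hs h0 hd hD0 hσ hs0 hsD
  have h4 : ((n - l : ℕ) : ℝ) = ((n - (l + 1) : ℕ) : ℝ) + 1 := by
    have : n - l = (n - (l + 1)) + 1 := by omega
    rw [this]
    push_cast
    ring
  have e : ∀ B' ∈ C, P G B B' * term D A s M n f g (mean C ρ f) g0 σ (l + 1) (w + f B) B' =
      (P G B B' * Real.exp (σ * s * ((w - l * mean C ρ f + g B - g0) +
        (f B - mean C ρ f + g B' - g B)))) *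
        Real.exp (s ^ 2 * D ^ 2 * ((n - (l + 1) : ℕ) : ℝ) - s * A + s * M) := by
    intro B' _
    unfold term
    rw [mul_assoc (P G B B') (Real.exp _) (Real.exp _), ← Real.exp_add]
    congr 2
    push_cast
    ring
  rw [sum_congr rfl e, ← sum_mul]
  calc _ ≤ Real.exp (σ * s * (w - l * mean C ρ f + g B - g0) + s ^ 2 * D ^ 2) *
        Real.exp (s ^ 2 * D ^ 2 * ((n - (l + 1) : ℕ) : ℝ) - s * A + s * M) :=
        mul_le_mul_of_nonneg_right h3 (Real.exp_pos _).le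
    _ = term D A s M n f g (mean C ρ f) g0 σ l w B := by
        unfold term
        rw [← Real.exp_add, h4]
        congr 1
        ring

theorem tailI (h1 : S_step1) (h2 : S_step2) (h3 : S_poisson) (h4 : S_countI) : S_tailI := by
  classical
  intro G C ρ hC hρ
  obtain ⟨g₁, hg₁⟩ := h3 G C ρ (f1 G) hC hρ
  obtain ⟨g₂, hg₂⟩ := h3 G C ρ (f2 G) hC hρ
  set μ₁ := mean C ρ (f1 G) with hμ₁
  set μ₂ := mean C ρ (f2 G) with hμ₂
  have hi1 : 0 ≤ inc C ρ (f1 G) g₁ := inc_nonneg _ _ _ _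
  have hi2 : 0 ≤ inc C ρ (f2 G) g₂ := inc_nonneg _ _ _ _
  set D : ℝ := inc C ρ (f1 G) g₁ + inc C ρ (f2 G) g₂ with hD
  have hD0 : 0 ≤ D := add_nonneg hi1 hi2
  set ks : ℕ := ∑ B ∈ C, B.2 with hks
  have hksB : ∀ B ∈ C, B.2 ≤ ks := fun B hB => single_le_sum (f := fun B : ℕ × ℕ => B.2)
    (fun _ _ => Nat.zero_le _) hB
  have hb1 := bd_nonneg C g₁
  have hb2 := bd_nonneg C g₂
  have hd : 2 ≤ G.d := G.hd
  have hdR : (2 : ℝ) ≤ G.d := by exact_mod_cast hd
  set M : ℝ := 2 * bd C g₁ + 2 * bd C g₂ with hM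
  have hM0 : 0 ≤ M := by positivity
  have hks0 : (0 : ℝ) ≤ (G.d : ℝ) * (G.d * ks) := by positivity
  refine ⟨40 + M + D + D ^ 2 + (G.d : ℝ) * (G.d * ks), by positivity, ?_⟩
  set K : ℝ := 40 + M + D + D ^ 2 + (G.d : ℝ) * (G.d * ks) with hK
  have hD2 : 0 ≤ D ^ 2 := sq_nonneg _
  intro u X n A s hX hs0 hsK hn B₀ hB₀
  have hK0 : 0 < K := by linarith
  have hKd : (G.d : ℝ) * (G.d * ks) ≤ K := by linarith
  have hsD : s * D ≤ 1 := le_trans (mul_le_mul_of_nonneg_left (by linarith) hs0.le) hsK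
  have hsM : s * M ≤ 1 := le_trans (mul_le_mul_of_nonneg_left (by linarith) hs0.le) hsK
  have hst := hC.state B₀ hB₀
  have h11 : |(1 : ℝ)| = 1 := abs_one
  have h12 : |(-1 : ℝ)| = 1 := by norm_num
  have hci1 : inc C ρ (f1 G) g₁ ≤ D := by linarith
  have hci2 : inc C ρ (f2 G) g₂ ≤ D := by linarith
  have key := h4 G C (fun a => if a = 1 then f1 G else f2 G) u X n
    (fun l w _ => A < |w 1 - l * μ₁| ∨ A < |w 2 - l * μ₂|)
    (fun l w B => (term D A s M n (f1 G) g₁ μ₁ (g₁ B₀) 1 l (w 1) B +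
        term D A s M n (f1 G) g₁ μ₁ (g₁ B₀) (-1) l (w 1) B) +
      (term D A s M n (f2 G) g₂ μ₂ (g₂ B₀) 1 l (w 2) B +
        term D A s M n (f2 G) g₂ μ₂ (g₂ B₀) (-1) l (w 2) B)) B₀ hC hB₀
    (fun l w B => by unfold term; positivity) ?_ ?_ ?_ ?_
  · -- conclusion
    have e0 : ∀ (f g : ℕ × ℕ → ℝ) (μ σ : ℝ), term D A s M n f g μ (g B₀) σ 0 0 B₀ =
        Real.exp (s ^ 2 * D ^ 2 * n - s * A) * Real.exp (s * M) := by
      intro f g μ σ
      unfold term
      rw [← Real.exp_add, Nat.sub_zero]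
      congr 1
      push_cast
      ring
    simp only [e0] at key
    have hq : 3 * (X : ℝ) / (G.d * B₀.2) ≤ 3 * X := by
      refine div_le_self (by positivity) ?_
      have : (1 : ℝ) ≤ B₀.2 := by exact_mod_cast hst.1
      nlinarith
    have he : Real.exp (s * M) ≤ 3 := by
      have h5 : Real.exp (s * M) ≤ Real.exp 1 := Real.exp_le_exp.2 hsM
      have h6 := Real.exp_one_lt_d9
      linarith
    set E := Real.exp (s ^ 2 * D ^ 2 * n - s * A) with hE
    have hE0 : 0 < E := Real.exp_pos _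
    have hEM : (E * Real.exp (s * M) + E * Real.exp (s * M)) +
        (E * Real.exp (s * M) + E * Real.exp (s * M)) ≤ 12 * E := by nlinarith
    have hEM0 : 0 ≤ (E * Real.exp (s * M) + E * Real.exp (s * M)) +
        (E * Real.exp (s * M) + E * Real.exp (s * M)) := by positivity
    have hEK : E ≤ Real.exp (K * s ^ 2 * n - s * A) := by
      rw [hE]
      refine Real.exp_le_exp.2 ?_
      have h5 : s ^ 2 * D ^ 2 * n ≤ K * s ^ 2 * n := by
        have h6 : D ^ 2 ≤ K := by linarith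
        have h7 : s ^ 2 * D ^ 2 ≤ K * s ^ 2 := by
          rw [mul_comm K]
          exact mul_le_mul_of_nonneg_left h6 (sq_nonneg _)
        exact mul_le_mul_of_nonneg_right h7 (Nat.cast_nonneg _)
      linarith
    calc _ ≤ _ := ?_
      _ ≤ 3 * (X : ℝ) / (G.d * B₀.2) * ((E * Real.exp (s * M) + E * Real.exp (s * M)) +
        (E * Real.exp (s * M) + E * Real.exp (s * M))) := key
      _ ≤ 3 * (X : ℝ) * ((E * Real.exp (s * M) + E * Real.exp (s * M)) +
        (E * Real.exp (s * M) + E * Real.exp (s * M))) := mul_le_mul_of_nonneg_right hq hEM0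
      _ ≤ 3 * (X : ℝ) * (12 * E) := mul_le_mul_of_nonneg_left hEM (by positivity)
      _ = 36 * X * E := by ring
      _ ≤ K * X * Real.exp (K * s ^ 2 * n - s * A) := by
        have : (36 : ℝ) ≤ K := by linarith
        gcongr
    norm_cast
  · -- bad
    rintro l w B hB hbad
    have aux : ∀ (v μ : ℝ) (f g : ℕ × ℕ → ℝ), 2 * bd C g ≤ M → A < |v - l * μ| →
        1 ≤ term D A s M n f g μ (g B₀) 1 l v B + term D A s M n f g μ (g B₀) (-1) l v B := by
      intro v μ f g hg hu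
      have k1 := le_bd g hB
      have k2 := le_bd g hB₀
      have k3 : 0 ≤ s ^ 2 * D ^ 2 * ((n - l : ℕ) : ℝ) := by positivity
      have k1' := abs_le.1 k1
      have k2' := abs_le.1 k2
      have p1 : 0 < term D A s M n f g μ (g B₀) 1 l v B := Real.exp_pos _
      have p2 : 0 < term D A s M n f g μ (g B₀) (-1) l v B := Real.exp_pos _
      rcases le_total 0 (v - l * μ) with h0 | h0
      · rw [abs_of_nonneg h0] at hu
        have : 1 ≤ term D A s M n f g μ (g B₀) 1 l v B := by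
          unfold term
          refine Real.one_le_exp ?_
          have k4 : A - M ≤ v - l * μ + g B - g B₀ := by linarith
          have k5 := mul_le_mul_of_nonneg_left k4 hs0.le
          rw [one_mul]
          nlinarith
        linarith
      · rw [abs_of_nonpos h0] at hu
        have : 1 ≤ term D A s M n f g μ (g B₀) (-1) l v B := by
          unfold term
          refine Real.one_le_exp ?_
          have k4 : A - M ≤ -(v - l * μ + g B - g B₀) := by linarith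
          have k5 := mul_le_mul_of_nonneg_left k4 hs0.le
          nlinarith
        linarith
    have p0 : ∀ (v μ : ℝ) (f g : ℕ × ℕ → ℝ), 0 ≤ term D A s M n f g μ (g B₀) 1 l v B +
        term D A s M n f g μ (g B₀) (-1) l v B := fun v μ f g =>
      add_nonneg (Real.exp_pos _).le (Real.exp_pos _).le
    rcases hbad with h | h
    · have := aux _ _ (f1 G) g₁ (by linarith) h
      have := p0 (w 2) μ₂ (f2 G) g₂
      linarith
    · have := aux _ _ (f2 G) g₂ (by linarith) h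
      have := p0 (w 1) μ₁ (f1 G) g₁
      linarith
  · -- one step
    intro l hl w B hB _
    have k1 := term_step (A := A) (M := M) h2 hC hci1 h11 hs0 hsD hg₁ hl (w 1) (g₁ B₀) hB
    have k2 := term_step (A := A) (M := M) h2 hC hci1 h12 hs0 hsD hg₁ hl (w 1) (g₁ B₀) hB
    have k3 := term_step (A := A) (M := M) h2 hC hci2 h11 hs0 hsD hg₂ hl (w 2) (g₂ B₀) hB
    have k4 := term_step (A := A) (M := M) h2 hC hci2 h12 hs0 hsD hg₂ hl (w 2) (g₂ B₀) hB
    rw [← hμ₁] at k1 k2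
    rw [← hμ₂] at k3 k4
    simp only [if_true, OfNat.ofNat_ne_one, if_false]
    refine le_trans (le_of_eq ?_) (add_le_add (add_le_add k1 k2) (add_le_add k3 k4))
    rw [← sum_add_distrib, ← sum_add_distrib, ← sum_add_distrib]
    refine sum_congr rfl fun B' _ => ?_
    ring
  · -- size
    have k1 : (G.d : ℝ) * B₀.2 ≤ (G.d : ℝ) * (G.d * ks) := by
      have : (B₀.2 : ℝ) ≤ ks := by exact_mod_cast hksB B₀ hB₀
      have : (ks : ℝ) ≤ G.d * ks := by
        have : (0 : ℝ) ≤ ks := by positivity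
        nlinarith
      gcongr
      linarith
    have k2 : ((G.d * B₀.2 : ℕ) : ℝ) ≤ X := by
      push_cast
      linarith
    exact_mod_cast k2
  · -- not bad
    intro x hx l hl hb
    have hb1 := hb l le_rfl
    simp only [not_or, not_lt] at hb1
    have hb2 := hb1.2
    simp only [OfNat.ofNat_ne_one, if_false] at hb2
    have k1 : S G (f2 G) B₀ x l ≤ l * μ₂ + A := by
      have := (abs_le.1 hb2).2
      linarith
    have k2 := (path_mem h1 hC hB₀ hx l).1
    have k3 : ((Y G B₀ x l).2 : ℝ) ≤ ks := by exact_mod_cast hksB _ k2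
    have k4 := hn l hl.le
    refine le_trans ?_ k4
    have k5 : Real.exp (S G (f2 G) B₀ x l) ≤ Real.exp (l * μ₂ + A) := Real.exp_le_exp.2 k1
    push_cast
    calc (G.d : ℝ) * (G.d * (Y G B₀ x l).2 * Real.exp (S G (f2 G) B₀ x l)) =
        (G.d : ℝ) * (G.d * (Y G B₀ x l).2) * Real.exp (S G (f2 G) B₀ x l) := by ring
      _ ≤ (G.d : ℝ) * (G.d * ks) * Real.exp (l * μ₂ + A) := by gcongr
      _ ≤ K * Real.exp (l * μ₂ + A) := by gcongr

theorem tailE_of (h : S_tailI) : S_tailE := by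
  intro G C ρ hC hρ
  obtain ⟨K, hK, h5⟩ := h G C ρ hC hρ
  refine ⟨K, hK, fun X n A s h1 h2 h3 h4 B₀ hB₀ => ?_⟩
  have := h5 0 X n A s h1 h2 h3 h4 B₀ hB₀
  simpa using this

end Pool.Agent.Helper65.LG.TI
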